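import Pool.Agent.W259.GP.Defs

/-!
# Scaling of the Hermite functions (GP-H3)
-/

set_option autoImplicit false

open MeasureTheory

namespace Pool.Agent.W583.GP

open Pool.Agent.W259.GP

theorem eig_of (h1 : S_hf) (h2 : S_mehler) : S_eig := by
  obtain ⟨hcont, hbound, horth, hmom1, hmom2⟩ := h1
  intro c hc
  have hs1 : 1 < √(1 + 2 * c) := by
    rw [Real.lt_sqrt (by norm_num)]; linarith
  have hssq : √(1 + 2 * c) ^ 2 = 1 + 2 * c := Real.sq_sqrt (by linarith)
  set s : ℝ := √(1 + 2 * c) with hs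
  have hs0 : 0 < s := by linarith
  set β : ℝ := √s with hβ
  have hβ0 : 0 < β := Real.sqrt_pos.2 hs0
  have hβsq : β ^ 2 = s := Real.sq_sqrt hs0.le
  have hβ1 : 1 ≤ β := by rw [hβ, Real.one_le_sqrt]; exact hs1.le
  have hsβ : √β * √β = β := Real.mul_self_sqrt hβ0.le
  have hprod : ∀ k l x, √β * hf k (β * x) * (√β * hf l (β * x)) =
      β * (hf k (β * x) * hf l (β * x)) := by
    intro k l x
    linear_combination (hf k (β * x) * hf l (β * x)) * hsβ
  have habs : |β⁻¹| = β⁻¹ := abs_of_pos (inv_pos.2 hβ0)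
  have key : ∀ g : ℝ → ℝ, ∫ x, g (β * x) = β⁻¹ * ∫ x, g x := by
    intro g
    rw [Measure.integral_comp_mul_left g β, habs, smul_eq_mul]
  refine ⟨fun k x => √β * hf k (β * x), ?_, ?_, ?_, ?_, ?_, ?_⟩
  · intro k
    exact continuous_const.mul ((hcont k).comp (continuous_const.mul continuous_id))
  · intro k
    obtain ⟨C, hC⟩ := hbound k
    have hC0 : 0 ≤ C := by
      have := hC 0
      have h3 : Real.exp (-(0 : ℝ) ^ 2 / 4) = 1 := by norm_num
      rw [h3, mul_one] at this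
      exact (abs_nonneg _).trans this
    refine ⟨√β * C, fun x => ?_⟩
    rw [abs_mul, abs_of_nonneg (Real.sqrt_nonneg β), mul_assoc]
    refine mul_le_mul_of_nonneg_left ?_ (Real.sqrt_nonneg β)
    refine (hC (β * x)).trans (mul_le_mul_of_nonneg_left ?_ hC0)
    rw [Real.exp_le_exp]
    have : x ^ 2 ≤ (β * x) ^ 2 := by
      rw [mul_pow, hβsq]
      nlinarith [sq_nonneg x]
    linarith
  · intro k l
    simp only [hprod]
    rw [integral_const_mul, key (fun x => hf k x * hf l x), horth, ← mul_assoc,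
      mul_inv_cancel₀ hβ0.ne', one_mul]
  · intro k l
    have e1 : ∀ x, x * (√β * hf k (β * x) * (√β * hf l (β * x))) =
        (β * x) * (hf k (β * x) * hf l (β * x)) := by
      intro x; rw [hprod]; ring
    simp only [e1]
    rw [key (fun x => x * (hf k x * hf l x)), hmom1]
    have e2 : ∀ k : ℕ, √(((k : ℝ) + 1) / (2 * s)) = β⁻¹ * √(((k : ℝ) + 1) / 2) := by
      intro k
      have : ((k : ℝ) + 1) / (2 * s) = (((k : ℝ) + 1) / 2) / s := by field_simp
      rw [this, Real.sqrt_div (by positivity), ← hβ, div_eq_mul_inv, mul_comm]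
    split_ifs
    · rw [e2]
    · rw [e2]
    · rw [mul_zero]
  · intro k
    have e1 : ∀ x, x ^ 2 * (√β * hf k (β * x)) ^ 2 =
        β⁻¹ * ((β * x) ^ 2 * hf k (β * x) ^ 2) := by
      intro x
      have h3 : (√β) ^ 2 = β := Real.sq_sqrt hβ0.le
      rw [mul_pow, h3, mul_pow]
      field_simp
    simp only [e1]
    rw [integral_const_mul, key (fun x => x ^ 2 * hf k x ^ 2), hmom2]
    have : β⁻¹ * (β⁻¹ * ((2 * (k : ℝ) + 1) / 2)) = ((2 * (k : ℝ) + 1) / 2) / β ^ 2 := by
      field_simp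
    rw [this, hβsq, ← hs]
    field_simp
  · intro x y
    have hr : rr c = (s - 1) / (s + 1) := by rw [rr]
    have hr0 : 0 ≤ rr c := by
      rw [hr]; exact div_nonneg (by linarith) (by linarith)
    have hr1 : rr c < 1 := by
      rw [hr, div_lt_one (by linarith)]; linarith
    have h3 := (h2 (rr c) hr0 hr1 (β * x) (β * y)).mul_left ((1 - rr c) * β)
    have e1 : (fun k : ℕ => (1 - rr c) * β * (rr c ^ k * (hf k (β * x) * hf k (β * y)))) =
        fun k : ℕ => (1 - rr c) * rr c ^ k * (√β * hf k (β * x) * (√β * hf k (β * y))) := by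
      funext k
      linear_combination (-(1 - rr c) * rr c ^ k * hf k (β * x) * hf k (β * y)) * hsβ
    rw [e1] at h3
    have hval : (1 - rr c) * β * ((√(Real.pi * (1 - rr c ^ 2)))⁻¹ *
        Real.exp ((4 * rr c * (β * x) * (β * y) -
          (1 + rr c ^ 2) * ((β * x) ^ 2 + (β * y) ^ 2)) / (2 * (1 - rr c ^ 2)))) = kc c x y := by
      have h1r : 1 - rr c = 2 / (s + 1) := by
        rw [hr]; field_simp; ring
      have h1r2 : 1 - rr c ^ 2 = 4 * s / (s + 1) ^ 2 := by
        rw [hr]; field_simp; ring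
      have h4 : (1 - rr c) * β = √(1 - rr c ^ 2) := by
        symm
        rw [Real.sqrt_eq_iff_mul_self_eq (by rw [h1r2]; positivity)
          (mul_nonneg (by linarith) hβ0.le)]
        have : (1 - rr c) * β * ((1 - rr c) * β) = (1 - rr c) ^ 2 * β ^ 2 := by ring
        rw [this, hβsq, h1r, h1r2]
        field_simp
        ring
      have h5 : √(1 - rr c ^ 2) ≠ 0 := by
        rw [← h4]; exact (mul_pos (by linarith) hβ0).ne'
      have h6 : (4 * rr c * (β * x) * (β * y) -
          (1 + rr c ^ 2) * ((β * x) ^ 2 + (β * y) ^ 2)) / (2 * (1 - rr c ^ 2)) =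
          -(x ^ 2 + y ^ 2) / 2 - c * (x - y) ^ 2 / 2 := by
        have hcs : c = (s ^ 2 - 1) / 2 := by rw [hssq]; ring
        have h7 : 4 * rr c * (β * x) * (β * y) -
          (1 + rr c ^ 2) * ((β * x) ^ 2 + (β * y) ^ 2) =
          β ^ 2 * (4 * rr c * x * y - (1 + rr c ^ 2) * (x ^ 2 + y ^ 2)) := by ring
        rw [h7, hβsq, h1r2, hr, hcs]
        field_simp
        ring
      rw [h6, Real.sqrt_mul Real.pi_pos.le, mul_inv, h4, kc]
      have : √(1 - rr c ^ 2) * ((√Real.pi)⁻¹ * (√(1 - rr c ^ 2))⁻¹ *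
          Real.exp (-(x ^ 2 + y ^ 2) / 2 - c * (x - y) ^ 2 / 2)) =
          (√(1 - rr c ^ 2) * (√(1 - rr c ^ 2))⁻¹) * ((√Real.pi)⁻¹ *
          Real.exp (-(x ^ 2 + y ^ 2) / 2 - c * (x - y) ^ 2 / 2)) := by ring
      rw [this, mul_inv_cancel₀ h5, one_mul]
    rw [hval] at h3
    exact h3

end Pool.Agent.W583.GP
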