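import Pool.Agent.W259.GP.Defs

/-!
# Riemann sums on the whole line (GP-RS)
-/

set_option autoImplicit false

open MeasureTheory Filter Finset
open scoped Topology

namespace Pool.Agent.W583.GP

open Pool.Agent.W259.GP

/-- the step function -/
noncomputable def stp (f : ℝ → ℝ) (m : ℕ) (x : ℝ) : ℝ :=
  ∑ j : Fin (2 * m ^ 2 + 1), (Set.Ico (((j : ℝ) - (m : ℝ) ^ 2) / m)
    (((j : ℝ) - (m : ℝ) ^ 2 + 1) / m)).indicator (fun _ => f (((j : ℝ) - (m : ℝ) ^ 2) / m)) x

theorem mem_cell {m : ℕ} (hm : 0 < m) (x : ℝ) (j : ℕ) :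
    x ∈ Set.Ico (((j : ℝ) - (m : ℝ) ^ 2) / m) (((j : ℝ) - (m : ℝ) ^ 2 + 1) / m) ↔
      ⌊(m : ℝ) * x⌋ = (j : ℤ) - (m : ℤ) ^ 2 := by
  have hm' : (0 : ℝ) < m := by exact_mod_cast hm
  rw [Int.floor_eq_iff, Set.mem_Ico, div_le_iff₀ hm', lt_div_iff₀ hm', mul_comm x]
  push_cast
  rfl

theorem stp_eq (f : ℝ → ℝ) {m : ℕ} (hm : 0 < m) (x : ℝ) :
    stp f m x = if |⌊(m : ℝ) * x⌋| ≤ (m : ℤ) ^ 2 then f ((⌊(m : ℝ) * x⌋ : ℝ) / m) else 0 := by
  set k : ℤ := ⌊(m : ℝ) * x⌋ with hk
  unfold stp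
  split_ifs with h
  · rw [abs_le] at h
    have h0 : 0 ≤ k + (m : ℤ) ^ 2 := by linarith [h.1]
    obtain ⟨j0, hj0⟩ := Int.eq_ofNat_of_zero_le h0
    have hlt : j0 < 2 * m ^ 2 + 1 := by
      have : (j0 : ℤ) < 2 * (m : ℤ) ^ 2 + 1 := by rw [← hj0]; linarith [h.2]
      exact_mod_cast this
    have hj0' : (k : ℝ) = (j0 : ℝ) - (m : ℝ) ^ 2 := by
      have : k = (j0 : ℤ) - (m : ℤ) ^ 2 := by rw [← hj0]; ring
      rw [this]; push_cast; ring
    rw [Finset.sum_eq_single (⟨j0, hlt⟩ : Fin (2 * m ^ 2 + 1))]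
    · rw [Set.indicator_of_mem, hj0']
      rw [mem_cell hm, ← hk]
      change k = (j0 : ℤ) - (m : ℤ) ^ 2
      rw [← hj0]; ring
    · intro j _ hj
      refine Set.indicator_of_notMem (fun hx => hj ?_) _
      rw [mem_cell hm, ← hk] at hx
      apply Fin.ext
      change (j : ℕ) = j0
      have : ((j : ℕ) : ℤ) = (j0 : ℤ) := by rw [← hj0, hx]; ring
      exact_mod_cast this
    · intro h1; exact absurd (Finset.mem_univ _) h1
  · refine Finset.sum_eq_zero fun j _ => ?_
    refine Set.indicator_of_notMem (fun hx => h ?_) _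
    rw [mem_cell hm, ← hk] at hx
    rw [abs_le, hx]
    have h1 : (j : ℕ) < 2 * m ^ 2 + 1 := j.isLt
    have h2 : ((j : ℕ) : ℤ) ≤ 2 * (m : ℤ) ^ 2 := by exact_mod_cast Nat.lt_succ_iff.1 h1
    constructor <;> linarith [Int.natCast_nonneg (j : ℕ)]

theorem stp_integral (f : ℝ → ℝ) {m : ℕ} (hm : 0 < m) :
    ∫ x, stp f m x = (1 / (m : ℝ)) * ∑ j : Fin (2 * m ^ 2 + 1),
      f (((j : ℝ) - (m : ℝ) ^ 2) / m) := by
  have hm' : (0 : ℝ) < m := by exact_mod_cast hm
  unfold stp
  rw [integral_finsetSum, Finset.mul_sum]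
  · refine Finset.sum_congr rfl fun j _ => ?_
    rw [integral_indicator measurableSet_Ico, setIntegral_const, Real.volume_real_Ico,
      smul_eq_mul]
    congr 1
    have : ((j : ℝ) - (m : ℝ) ^ 2 + 1) / m - ((j : ℝ) - (m : ℝ) ^ 2) / m = 1 / m := by
      field_simp; ring
    rw [this]
    exact max_eq_left (by positivity)
  · intro j _
    rw [integrable_indicator_iff measurableSet_Ico]
    exact integrableOn_const (by rw [Real.volume_Ico]; exact ENNReal.ofReal_ne_top)

theorem floor_near {m : ℕ} (hm : 0 < m) (x : ℝ) :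
    |(⌊(m : ℝ) * x⌋ : ℝ) / m - x| ≤ 1 / m := by
  have hm' : (0 : ℝ) < m := by exact_mod_cast hm
  have h1 := Int.floor_le ((m : ℝ) * x)
  have h2 := Int.lt_floor_add_one ((m : ℝ) * x)
  have e : (⌊(m : ℝ) * x⌋ : ℝ) / m - x = ((⌊(m : ℝ) * x⌋ : ℝ) - m * x) / m := by
    field_simp
  rw [e, abs_div, abs_of_pos hm']
  refine div_le_div_of_nonneg_right ?_ hm'.le
  rw [abs_le]
  constructor <;> linarith

theorem riemann : S_riemann := by
  rintro f hf ⟨C, hC⟩
  have hC0 : 0 ≤ C := by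
    have := hC 0
    have h3 : Real.exp (-(0 : ℝ) ^ 2 / 8) = 1 := by norm_num
    rw [h3, mul_one] at this
    exact (abs_nonneg _).trans this
  have hlim : Tendsto (fun m : ℕ => ∫ x, stp f m x) atTop (𝓝 (∫ x, f x)) := by
    refine tendsto_integral_filter_of_dominated_convergence
      (fun x => C * Real.exp (1 / 8) * Real.exp (-(1 / 16) * x ^ 2)) ?_ ?_ ?_ ?_
    · refine Eventually.of_forall fun m => ?_
      refine Measurable.aestronglyMeasurable ?_
      unfold stp
      refine Finset.measurable_sum _ fun j _ => ?_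
      exact measurable_const.indicator measurableSet_Ico
    · filter_upwards [eventually_gt_atTop 0] with m hm
      refine Eventually.of_forall fun x => ?_
      rw [stp_eq f hm, Real.norm_eq_abs]
      have hnn : 0 ≤ C * Real.exp (1 / 8) * Real.exp (-(1 / 16) * x ^ 2) := by positivity
      split_ifs with h
      · refine (hC _).trans ?_
        rw [mul_assoc, ← Real.exp_add]
        refine mul_le_mul_of_nonneg_left ?_ hC0
        rw [Real.exp_le_exp]
        set t : ℝ := (⌊(m : ℝ) * x⌋ : ℝ) / m with ht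
        have h1 := floor_near hm x
        rw [← ht] at h1
        have hm1 : (1 : ℝ) / m ≤ 1 := by
          rw [div_le_one (by exact_mod_cast hm)]
          exact_mod_cast hm
        have h2 : |t - x| ≤ 1 := h1.trans hm1
        have h3 : (t - x) ^ 2 ≤ 1 := by
          rw [← sq_abs]
          nlinarith [abs_nonneg (t - x)]
        nlinarith [sq_nonneg (t + (t - x))]
      · rw [abs_zero]; exact hnn
    · have h1 : Integrable (fun x : ℝ => Real.exp (-(1 / 16) * x ^ 2)) :=
        integrable_exp_neg_mul_sq (by norm_num)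
      exact h1.const_mul _
    · refine Eventually.of_forall fun x => ?_
      have h1 : Tendsto (fun m : ℕ => (⌊(m : ℝ) * x⌋ : ℝ) / m) atTop (𝓝 x) := by
        rw [tendsto_iff_dist_tendsto_zero]
        refine squeeze_zero' (Eventually.of_forall fun m => dist_nonneg) ?_
          (tendsto_one_div_atTop_nhds_zero_nat (𝕜 := ℝ))
        filter_upwards [eventually_gt_atTop 0] with m hm
        rw [Real.dist_eq]
        exact floor_near hm x
      have h2 : Tendsto (fun m : ℕ => f ((⌊(m : ℝ) * x⌋ : ℝ) / m)) atTop (𝓝 (f x)) :=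
        (hf.tendsto x).comp h1
      refine h2.congr' ?_
      obtain ⟨N, hN⟩ := exists_nat_ge (|x| + 1)
      filter_upwards [eventually_ge_atTop N, eventually_gt_atTop 0] with m hm hm0
      rw [stp_eq f hm0, if_pos]
      have hm' : (0 : ℝ) < m := by exact_mod_cast hm0
      have hmx : |x| + 1 ≤ (m : ℝ) := hN.trans (by exact_mod_cast hm)
      have hm1 : (1 : ℝ) ≤ m := by exact_mod_cast hm0
      have k1 := Int.floor_le ((m : ℝ) * x)
      have k2 := Int.lt_floor_add_one ((m : ℝ) * x)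
      have k3 : |(m : ℝ) * x| + 1 ≤ (m : ℝ) ^ 2 := by
        rw [abs_mul, abs_of_pos hm']
        nlinarith [abs_nonneg x]
      have k4 := abs_le.1 (le_refl |(m : ℝ) * x|)
      have k5 : |(⌊(m : ℝ) * x⌋ : ℝ)| ≤ (m : ℝ) ^ 2 := by
        rw [abs_le]
        constructor <;> linarith [k4.1, k4.2]
      exact_mod_cast k5
  refine hlim.congr' ?_
  filter_upwards [eventually_gt_atTop 0] with m hm
  exact stp_integral f hm

end Pool.Agent.W583.GP
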