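import Pool.Agent.W583.GP.Top

/-!
# Trapezoidal minus midpoint sums (GP-SUM)
-/

set_option autoImplicit false

open Filter Finset
open scoped Topology

namespace Pool.Agent.W583.GP

open Pool.Agent.W259.GP

/-- midpoint minus trapezoidal sum of a `C¹` function on `[0,π]` tends to `0` -/
theorem mid_trap (F G : ℝ → ℝ) (hF : ContinuousOn F (Set.Icc 0 Real.pi))
    (hG : ContinuousOn G (Set.Icc 0 Real.pi))
    (hFG : ∀ θ ∈ Set.Ioo 0 Real.pi, HasDerivAt F (G θ) θ) :
    Tendsto (fun n : ℕ => ∑ j ∈ range (n + 1),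
      (F (Real.pi * (2 * (j : ℝ) + 1) / (2 * ((n : ℝ) + 1))) -
        (F (Real.pi * (j : ℝ) / ((n : ℝ) + 1)) + F (Real.pi * ((j : ℝ) + 1) / ((n : ℝ) + 1))) / 2))
      atTop (𝓝 0) := by
  have hpi := Real.pi_pos
  rw [Metric.tendsto_atTop]
  intro ε hε
  have hu := isCompact_Icc.uniformContinuousOn_of_continuous hG
  rw [Metric.uniformContinuousOn_iff] at hu
  obtain ⟨δ, hδ, H⟩ := hu (ε / Real.pi) (by positivity)
  obtain ⟨N, hN⟩ := exists_nat_gt (Real.pi / δ)
  refine ⟨N, fun n hn => ?_⟩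
  rw [dist_zero_right, Real.norm_eq_abs]
  have hn1 : (0 : ℝ) < (n : ℝ) + 1 := by positivity
  set h : ℝ := Real.pi / ((n : ℝ) + 1) with hh
  have hh0 : 0 < h := by positivity
  have hhδ : h < δ := by
    rw [hh, div_lt_iff₀ hn1]
    rw [div_lt_iff₀ hδ] at hN
    have h1 : (N : ℝ) ≤ n := by exact_mod_cast hn
    nlinarith
  have hNh : ((n : ℝ) + 1) * h = Real.pi := by rw [hh]; field_simp
  have term : ∀ j ∈ range (n + 1),
      |F (Real.pi * (2 * (j : ℝ) + 1) / (2 * ((n : ℝ) + 1))) -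
        (F (Real.pi * (j : ℝ) / ((n : ℝ) + 1)) + F (Real.pi * ((j : ℝ) + 1) / ((n : ℝ) + 1))) / 2| ≤
      h / 4 * (ε / Real.pi) := by
    intro j hj
    have hj1 : (j : ℝ) + 1 ≤ (n : ℝ) + 1 := by
      have := mem_range.1 hj
      exact_mod_cast this
    have e1 : Real.pi * (2 * (j : ℝ) + 1) / (2 * ((n : ℝ) + 1)) = (j : ℝ) * h + h / 2 := by
      rw [hh]; field_simp
    have e2 : Real.pi * (j : ℝ) / ((n : ℝ) + 1) = (j : ℝ) * h := by rw [hh]; field_simp
    have e3 : Real.pi * ((j : ℝ) + 1) / ((n : ℝ) + 1) = (j : ℝ) * h + h := by rw [hh]; field_simp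
    rw [e1, e2, e3]
    set a : ℝ := (j : ℝ) * h with ha
    have ha0 : 0 ≤ a := by positivity
    have hb1 : a + h ≤ Real.pi := by
      rw [← hNh, ha]; nlinarith
    have sub1 : Set.Icc a (a + h / 2) ⊆ Set.Icc 0 Real.pi := fun x hx =>
      ⟨ha0.trans hx.1, by linarith [hx.2]⟩
    have sub2 : Set.Icc (a + h / 2) (a + h) ⊆ Set.Icc 0 Real.pi := fun x hx =>
      ⟨by linarith [hx.1], by linarith [hx.2]⟩
    obtain ⟨x1, hx1, k1⟩ := exists_hasDerivAt_eq_slope F G (show a < a + h / 2 by linarith)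
      (hF.mono sub1) (fun x hx => hFG x ⟨by linarith [hx.1], by linarith [hx.2]⟩)
    obtain ⟨x2, hx2, k2⟩ := exists_hasDerivAt_eq_slope F G (show a + h / 2 < a + h by linarith)
      (hF.mono sub2) (fun x hx => hFG x ⟨by linarith [hx.1], by linarith [hx.2]⟩)
    have k3 : G x1 * (h / 2) = F (a + h / 2) - F a := by
      rw [k1]
      have : a + h / 2 - a = h / 2 := by ring
      rw [this]; field_simp
    have k4 : G x2 * (h / 2) = F (a + h) - F (a + h / 2) := by
      rw [k2]
      have : a + h - (a + h / 2) = h / 2 := by ring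
      rw [this]; field_simp
    have hd : dist (G x1) (G x2) < ε / Real.pi := by
      refine H x1 (sub1 ⟨hx1.1.le, hx1.2.le⟩) x2 (sub2 ⟨hx2.1.le, hx2.2.le⟩) ?_
      rw [Real.dist_eq, abs_lt]
      constructor <;> linarith [hx1.1, hx1.2, hx2.1, hx2.2]
    rw [Real.dist_eq] at hd
    have e4 : F (a + h / 2) - (F a + F (a + h)) / 2 = h / 4 * (G x1 - G x2) := by
      linear_combination (1 / 2) * k4 - (1 / 2) * k3
    rw [e4, abs_mul, abs_of_pos (by positivity : 0 < h / 4)]
    exact mul_le_mul_of_nonneg_left hd.le (by positivity)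
  refine (Finset.abs_sum_le_sum_abs _ _).trans_lt ((Finset.sum_le_sum term).trans_lt ?_)
  rw [sum_const, card_range, nsmul_eq_mul]
  push_cast
  have : ((n : ℝ) + 1) * (h / 4 * (ε / Real.pi)) = ε / 4 := by
    have : ((n : ℝ) + 1) * (h / 4 * (ε / Real.pi)) = (((n : ℝ) + 1) * h) * ε / (4 * Real.pi) := by
      field_simp
    rw [this, hNh]; field_simp
  rw [this]
  linarith

/-- `s(θ) = √(1 + 4c(1 - cos θ))` -/
noncomputable def ss (c θ : ℝ) : ℝ := √(1 + 4 * c * (1 - Real.cos θ))

/-- the entropy along the chain -/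
noncomputable def FF (c θ : ℝ) : ℝ :=
  Real.negMulLog ((ss c θ - 1) / 2) - Real.negMulLog ((ss c θ + 1) / 2)

/-- the derivative of `FF` -/
noncomputable def GG (c θ : ℝ) : ℝ :=
  c / ss c θ * √((ss c θ + 1) / (4 * c)) * √(1 + Real.cos θ) *
    (√(ss c θ - 1) * Real.log (ss c θ + 1) + 2 * Real.negMulLog √(ss c θ - 1))

theorem ss_ge {c : ℝ} (hc : 0 < c) (θ : ℝ) : 1 ≤ ss c θ := by
  have h1 := Real.cos_le_one θ
  unfold ss
  rw [Real.one_le_sqrt]
  nlinarith

theorem ss_cont (c : ℝ) : Continuous (ss c) := by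
  unfold ss
  fun_prop

theorem FF_cont (c : ℝ) : Continuous (FF c) := by
  unfold FF
  exact (Real.continuous_negMulLog.comp (((ss_cont c).sub continuous_const).div_const _)).sub
    (Real.continuous_negMulLog.comp (((ss_cont c).add continuous_const).div_const _))

theorem GG_cont {c : ℝ} (hc : 0 < c) : Continuous (GG c) := by
  unfold GG
  have hs := ss_cont c
  have h0 : ∀ θ, ss c θ ≠ 0 := fun θ => by have := ss_ge hc θ; linarith
  have h1 : Continuous fun θ => c / ss c θ := continuous_const.div hs h0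
  have h2 : Continuous fun θ => √((ss c θ + 1) / (4 * c)) :=
    ((hs.add continuous_const).div_const _).sqrt
  have h3 : Continuous fun θ => √(1 + Real.cos θ) := by fun_prop
  have h4 : Continuous fun θ => √(ss c θ - 1) := (hs.sub continuous_const).sqrt
  have h5 : Continuous fun θ => Real.log (ss c θ + 1) :=
    (hs.add continuous_const).log (fun θ => by
      have := ss_ge hc θ
      change ss c θ + 1 ≠ 0
      linarith)
  have h6 : Continuous fun θ => Real.negMulLog √(ss c θ - 1) := Real.continuous_negMulLog.comp h4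
  exact ((h1.mul h2).mul h3).mul ((h4.mul h5).add (continuous_const.mul h6))

theorem gH_eq_F {t : ℝ} (ht : 0 ≤ t) :
    gH t = Real.negMulLog ((√(1 + 2 * t) - 1) / 2) - Real.negMulLog ((√(1 + 2 * t) + 1) / 2) := by
  rcases ht.eq_or_lt with rfl | ht
  · rw [gH, rr]
    norm_num [Real.negMulLog]
  · rw [gH_eq ht]
    have hs : 1 < √(1 + 2 * t) := by
      rw [Real.lt_sqrt (by norm_num)]; linarith
    set s : ℝ := √(1 + 2 * t) with hsdef
    have h1 : Real.log ((s + 1) / (s - 1)) = Real.log ((s + 1) / 2) - Real.log ((s - 1) / 2) := by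
      rw [Real.log_div (by positivity) (by linarith), Real.log_div (by positivity) (by norm_num),
        Real.log_div (by linarith) (by norm_num)]
      ring
    rw [h1, Real.negMulLog, Real.negMulLog]
    ring

theorem FF_deriv {c : ℝ} (hc : 0 < c) (θ : ℝ) (hθ : θ ∈ Set.Ioo 0 Real.pi) :
    HasDerivAt (FF c) (GG c θ) θ := by
  have hcos : Real.cos θ < 1 := by
    have := Real.cos_lt_cos_of_nonneg_of_le_pi le_rfl hθ.2.le hθ.1
    rwa [Real.cos_zero] at this
  have hcos' : -1 ≤ Real.cos θ := Real.neg_one_le_cos θ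
  have hsin : 0 < Real.sin θ := Real.sin_pos_of_mem_Ioo hθ
  have hs1 : 1 < ss c θ := by
    unfold ss
    rw [Real.lt_sqrt (by norm_num)]
    nlinarith
  have hsd : HasDerivAt (ss c) (2 * c * Real.sin θ / ss c θ) θ := by
    have h1 : HasDerivAt (fun θ => 1 + 4 * c * (1 - Real.cos θ)) (4 * c * Real.sin θ) θ := by
      have := (((Real.hasDerivAt_cos θ).const_sub 1).const_mul (4 * c)).const_add 1
      simpa using this
    have h2 := h1.sqrt (by nlinarith)
    have h3 : 4 * c * Real.sin θ / (2 * √(1 + 4 * c * (1 - Real.cos θ))) =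
        2 * c * Real.sin θ / ss c θ := by
      unfold ss
      have : (0 : ℝ) < √(1 + 4 * c * (1 - Real.cos θ)) := Real.sqrt_pos.2 (by nlinarith)
      field_simp
      ring
    rw [h3] at h2
    exact h2
  have hA : HasDerivAt (fun θ => Real.negMulLog ((ss c θ - 1) / 2))
      ((-Real.log ((ss c θ - 1) / 2) - 1) * (2 * c * Real.sin θ / ss c θ / 2)) θ :=
    HasDerivAt.comp (h₂ := Real.negMulLog) (h := fun θ => (ss c θ - 1) / 2) θ
      (Real.hasDerivAt_negMulLog (by linarith)) ((hsd.sub_const 1).div_const 2)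
  have hB : HasDerivAt (fun θ => Real.negMulLog ((ss c θ + 1) / 2))
      ((-Real.log ((ss c θ + 1) / 2) - 1) * (2 * c * Real.sin θ / ss c θ / 2)) θ :=
    HasDerivAt.comp (h₂ := Real.negMulLog) (h := fun θ => (ss c θ + 1) / 2) θ
      (Real.hasDerivAt_negMulLog (by linarith)) ((hsd.add_const 1).div_const 2)
  have hAB := hA.sub hB
  have hval : (-Real.log ((ss c θ - 1) / 2) - 1) * (2 * c * Real.sin θ / ss c θ / 2) -
      (-Real.log ((ss c θ + 1) / 2) - 1) * (2 * c * Real.sin θ / ss c θ / 2) = GG c θ := by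
    have hsq : ss c θ ^ 2 = 1 + 4 * c * (1 - Real.cos θ) := by
      unfold ss
      rw [Real.sq_sqrt (by nlinarith)]
    unfold GG
    set s : ℝ := ss c θ with hs
    have h1 : Real.log ((s - 1) / 2) = Real.log (s - 1) - Real.log 2 :=
      Real.log_div (by linarith) (by norm_num)
    have h2 : Real.log ((s + 1) / 2) = Real.log (s + 1) - Real.log 2 :=
      Real.log_div (by linarith) (by norm_num)
    have h3 : Real.sin θ = √((s + 1) / (4 * c)) * √(1 + Real.cos θ) * √(s - 1) := by
      rw [← Real.sqrt_mul (by positivity),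
        ← Real.sqrt_mul (mul_nonneg (by positivity) (by linarith))]
      symm
      rw [Real.sqrt_eq_iff_mul_self_eq (by
        have : 0 ≤ 1 + Real.cos θ := by linarith
        have : 0 ≤ s - 1 := by linarith
        positivity) hsin.le]
      have h4 : Real.sin θ * Real.sin θ = (1 - Real.cos θ) * (1 + Real.cos θ) := by
        have := Real.sin_sq_add_cos_sq θ
        nlinarith
      rw [h4]
      have h5 : 1 - Real.cos θ = (s + 1) * (s - 1) / (4 * c) := by
        rw [eq_div_iff (by positivity)]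
        nlinarith
      rw [h5]
      ring
    have h6 : Real.negMulLog √(s - 1) = -(√(s - 1) * (Real.log (s - 1) / 2)) := by
      rw [Real.negMulLog, Real.log_sqrt (by linarith)]
      ring
    rw [h1, h2, h6, h3]
    have hs0 : s ≠ 0 := by linarith
    field_simp
    ring
  rw [hval] at hAB
  exact hAB

theorem sum : S_sum := by
  intro c hc
  have hpi := Real.pi_pos
  have hFθ : ∀ θ : ℝ, gH (c * (2 - 2 * Real.cos θ)) = FF c θ := by
    intro θ
    have h0 : 0 ≤ c * (2 - 2 * Real.cos θ) := by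
      have := Real.cos_le_one θ
      nlinarith
    rw [gH_eq_F h0, FF, ss]
    have : 1 + 2 * (c * (2 - 2 * Real.cos θ)) = 1 + 4 * c * (1 - Real.cos θ) := by ring
    rw [this]
  have hF0 : FF c 0 = 0 := by
    rw [FF, ss, Real.cos_zero]
    norm_num [Real.negMulLog]
  have hFpi : FF c Real.pi = gH (4 * c) := by
    rw [← hFθ Real.pi, Real.cos_pi]
    congr 1
    ring
  have hmt := mid_trap (FF c) (GG c) (FF_cont c).continuousOn (GG_cont hc).continuousOn
    (fun θ hθ => FF_deriv hc θ hθ)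
  have hlim := hmt.add_const (1 / 2 * gH (4 * c))
  rw [zero_add] at hlim
  refine hlim.congr fun n => ?_
  have hn1 : (0 : ℝ) < (n : ℝ) + 1 := by positivity
  have e1 : ∑ j : Fin (n + 1), gH (cA c n j) =
      ∑ j ∈ range (n + 1), FF c (Real.pi * (2 * (j : ℝ) + 1) / (2 * ((n : ℝ) + 1))) := by
    rw [Finset.sum_range]
    refine Finset.sum_congr rfl fun j _ => ?_
    rw [cA, hFθ]
  have e2 : ∑ j : Fin n, gH (cB c n j) =
      ∑ j ∈ range n, FF c (Real.pi * ((j : ℝ) + 1) / ((n : ℝ) + 1)) := by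
    rw [Finset.sum_range]
    refine Finset.sum_congr rfl fun j _ => ?_
    rw [cB, hFθ]
  rw [e1, e2, Finset.sum_sub_distrib, ← Finset.sum_div, Finset.sum_add_distrib]
  have e3 : ∑ j ∈ range (n + 1), FF c (Real.pi * (j : ℝ) / ((n : ℝ) + 1)) =
      ∑ j ∈ range n, FF c (Real.pi * ((j : ℝ) + 1) / ((n : ℝ) + 1)) := by
    rw [Finset.sum_range_succ']
    have : FF c (Real.pi * ((0 : ℕ) : ℝ) / ((n : ℝ) + 1)) = 0 := by
      rw [Nat.cast_zero, mul_zero, zero_div, hF0]
    rw [this, add_zero]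
    refine Finset.sum_congr rfl fun j _ => ?_
    push_cast
    rfl
  have e4 : ∑ j ∈ range (n + 1), FF c (Real.pi * ((j : ℝ) + 1) / ((n : ℝ) + 1)) =
      ∑ j ∈ range n, FF c (Real.pi * ((j : ℝ) + 1) / ((n : ℝ) + 1)) + gH (4 * c) := by
    rw [Finset.sum_range_succ]
    congr 1
    rw [mul_div_assoc, div_self hn1.ne', mul_one, hFpi]
  rw [e3, e4]
  ring

end Pool.Agent.W583.GP
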