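import Pool.Agent.W259.GP.Defs

/-!
# The limit of strong coupling (GP-TOP)
-/

set_option autoImplicit false

namespace Pool.Agent.W583.GP

open Pool.Agent.W259.GP

/-- closed form of `gH` -/
theorem gH_eq {c : ℝ} (hc : 0 < c) : gH c =
    Real.log ((√(1 + 2 * c) + 1) / 2) +
      (√(1 + 2 * c) - 1) / 2 * Real.log ((√(1 + 2 * c) + 1) / (√(1 + 2 * c) - 1)) := by
  have hs : 1 < √(1 + 2 * c) := by
    rw [Real.lt_sqrt (by norm_num)]; linarith
  set s : ℝ := √(1 + 2 * c) with hsdef
  have h1 : 1 - rr c = ((s + 1) / 2)⁻¹ := by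
    rw [rr, ← hsdef]
    field_simp
    ring
  have h2 : rr c / (1 - rr c) = (s - 1) / 2 := by
    rw [h1, rr, ← hsdef]
    field_simp
  have h3 : rr c = ((s + 1) / (s - 1))⁻¹ := by
    rw [rr, ← hsdef, inv_div]
  rw [gH, h2, h1, Real.log_inv, h3, Real.log_inv]
  ring

theorem gH_le {c : ℝ} (hc : 0 < c) : gH c ≤ Real.log ((√(1 + 2 * c) + 1) / 2) + 1 := by
  rw [gH_eq hc]
  have hs : 1 < √(1 + 2 * c) := by
    rw [Real.lt_sqrt (by norm_num)]; linarith
  set s : ℝ := √(1 + 2 * c) with hsdef
  have h0 : 0 < s - 1 := by linarith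
  have h1 : Real.log ((s + 1) / (s - 1)) ≤ (s + 1) / (s - 1) - 1 :=
    Real.log_le_sub_one_of_pos (by positivity)
  have h2 : (s + 1) / (s - 1) - 1 = 2 / (s - 1) := by
    field_simp; ring
  rw [h2] at h1
  have h3 : (s - 1) / 2 * Real.log ((s + 1) / (s - 1)) ≤ (s - 1) / 2 * (2 / (s - 1)) :=
    mul_le_mul_of_nonneg_left h1 (by linarith)
  have h4 : (s - 1) / 2 * (2 / (s - 1)) = 1 := by field_simp
  linarith

theorem arctan_le_self' {x : ℝ} (hx : 0 ≤ x) : Real.arctan x ≤ x := by
  rcases le_or_gt (Real.pi / 2) x with h | h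
  · exact (Real.arctan_lt_pi_div_two x).le.trans h
  · rw [← Real.arctan_tan (x := x) (by linarith [Real.pi_pos]) h]
    rw [Real.arctan_tan (x := x) (by linarith [Real.pi_pos]) h]
    calc Real.arctan x ≤ Real.arctan (Real.tan x) :=
          Real.arctan_strictMono.monotone (Real.le_tan hx h)
      _ = x := Real.arctan_tan (by linarith [Real.pi_pos]) h

theorem top : S_top := by
  intro η hη
  set q : ℝ := Real.exp (-(2 * η)) with hq
  have hq0 : 0 < q := Real.exp_pos _
  have hq1 : q < 1 := by rw [hq, Real.exp_lt_one_iff]; linarith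
  set A : ℝ := 2 / (1 - q) with hA
  have hA0 : 0 < A := div_pos two_pos (by linarith)
  refine ⟨A ^ 2 / 8, by positivity, ?_⟩
  have e1 : √(8 * (A ^ 2 / 8)) = A := by
    rw [show 8 * (A ^ 2 / 8) = A ^ 2 by ring, Real.sqrt_sq hA0.le]
  rw [e1]
  have hc : 0 < 4 * (A ^ 2 / 8) := by positivity
  have h1 := gH_le hc
  set s : ℝ := √(1 + 2 * (4 * (A ^ 2 / 8))) with hs
  have hsA : s ≤ A + 1 := by
    rw [hs]
    apply Real.sqrt_le_iff.2
    constructor
    · linarith
    · nlinarith
  have hs0 : 0 ≤ s := Real.sqrt_nonneg _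
  have hpi := Real.pi_pos
  have h2 : Real.arctan (1 / A) ≤ 1 / A := arctan_le_self' (by positivity)
  have h3 : 0 < Real.arctan (1 / A) := by
    rw [Real.arctan_pos]; positivity
  have h4 : Real.log (2 / Real.pi * Real.arctan (1 / A)) ≤ Real.log (2 / (Real.pi * A)) := by
    refine Real.log_le_log (by positivity) ?_
    calc 2 / Real.pi * Real.arctan (1 / A) ≤ 2 / Real.pi * (1 / A) :=
          mul_le_mul_of_nonneg_left h2 (by positivity)
      _ = 2 / (Real.pi * A) := by field_simp
  have h5 : Real.log (2 / (Real.pi * A)) = Real.log 2 - (Real.log Real.pi + Real.log A) := by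
    rw [Real.log_div (by norm_num) (by positivity), Real.log_mul hpi.ne' hA0.ne']
  have h6 : Real.log ((s + 1) / 2) = Real.log (s + 1) - Real.log 2 :=
    Real.log_div (by positivity) (by norm_num)
  have h7 : Real.log (2 * Real.pi / Real.exp 1) = Real.log 2 + Real.log Real.pi - 1 := by
    rw [Real.log_div (by positivity) (Real.exp_pos _).ne', Real.log_exp,
      Real.log_mul (by norm_num) hpi.ne']
  have h8 : -(2 * η) < Real.log A - Real.log (s + 1) := by
    have k1 : Real.log (s + 1) ≤ Real.log (A + 2) :=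
      Real.log_le_log (by positivity) (by linarith)
    have k2 : -(2 * η) < Real.log A - Real.log (A + 2) := by
      rw [← Real.log_div hA0.ne' (by positivity), Real.lt_log_iff_exp_lt (by positivity), ← hq]
      rw [lt_div_iff₀ (by positivity)]
      have h9 : A * (1 - q) = 2 := by
        rw [hA]; field_simp
        rw [div_self (by linarith)]
      nlinarith
    linarith
  rw [h7]
  rw [h5] at h4
  rw [h6] at h1
  linarith

end Pool.Agent.W583.GP
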